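import Pool.Agent.J4H68.CG.Stm
import Pool.Agent.J4H95.SP.T4

/-!
# Project SP (b): 3-colourability, piece UP
-/

set_option autoImplicit false

namespace Pool.Agent.J4H68.CG

open Finset Pool.Agent.J4H64.SS Pool.Agent.J4H95.SP

theorem card_V (n k : ℕ) : Fintype.card (V n k) = 3 + 2 * n + 12 * (n * k) := by
  simp only [V, Fintype.card_sum, Fintype.card_prod, Fintype.card_fin, Fintype.card_bool]
  ring

/-- no vertex is adjacent to itself -/
theorem E_irrefl {n k : ℕ} (t : Cl n → Fin 3 → Fin n × Bool) (x : Cl n → Bool) (u : V n k) : ¬ E t x u u := by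
  rcases u with i | l | g
  · simp [E]
  · simp only [E]
    rintro ⟨-, h1, h2⟩
    rw [h1] at h2
    exact Bool.noConfusion h2
  · simp only [E]
    rintro ⟨-, -, h⟩
    unfold inner at h
    rcases h with h | h | h | h | h | h | h <;>
      · obtain ⟨h1, h2⟩ := h
        rw [h1] at h2
        exact absurd h2 (by decide)

/-- the adjacency bits of the graph -/
noncomputable def bits {n k N : ℕ} (e : V n k ≃ Fin N) (t : Cl n → Fin 3 → Fin n × Bool) (x : Cl n → Bool) : Pr N → Bool := by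
  classical
  exact fun p => decide (E t x (e.symm p.1.1) (e.symm p.1.2) ∨ E t x (e.symm p.1.2) (e.symm p.1.1))

theorem bits_eq {n k N : ℕ} (e : V n k ≃ Fin N) (t : Cl n → Fin 3 → Fin n × Bool) (x : Cl n → Bool) (p : Pr N) :
    bits e t x p = true ↔ (E t x (e.symm p.1.1) (e.symm p.1.2) ∨ E t x (e.symm p.1.2) (e.symm p.1.1)) := by
  classical
  unfold bits
  exact decide_eq_true_iff

theorem col_bits {n k N : ℕ} (e : V n k ≃ Fin N) (t : Cl n → Fin 3 → Fin n × Bool) (x : Cl n → Bool) :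
    Col (bits e t x) ↔ ∃ χ : V n k → Fin 3, ∀ u v, E t x u v → χ u ≠ χ v := by
  constructor
  · rintro ⟨χ, h⟩
    refine ⟨fun u => χ (e u), fun u v huv => ?_⟩
    have hne : e u ≠ e v := by
      intro h'
      have := e.injective h'
      subst this
      exact E_irrefl t x _ huv
    rcases lt_or_gt_of_ne hne with h1 | h1
    · have h2 := h ⟨(e u, e v), h1⟩ ((bits_eq e t x _).2 (Or.inl (by simpa using huv)))
      exact h2
    · have h2 := h ⟨(e v, e u), h1⟩ ((bits_eq e t x _).2 (Or.inr (by simpa using huv)))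
      exact fun h3 => h2 h3.symm
  · rintro ⟨χ, h⟩
    refine ⟨fun i => χ (e.symm i), fun p hp => ?_⟩
    rcases (bits_eq e t x p).1 hp with h1 | h1
    · exact h _ _ h1
    · exact fun h3 => h _ _ h1 h3.symm

theorem t_UP : S_UP := by
  classical
  intro hCOR hENU hACE
  rintro ⟨δ, hδ, k, hS⟩
  obtain ⟨K, d₀, hK1, hP⟩ := hACE k
  obtain ⟨N₁, hN₁⟩ := J4H17.SP.poly_le (δ / 4) (by positivity) (K * (2 * d₀) + 5)
  set A : ℝ := 5 + 12 * (k : ℝ) with hA
  have hA0 : 0 < A := by positivity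
  refine ⟨δ / 4 / A, by positivity, fun d N₀ => ?_⟩
  obtain ⟨n, hn, hn1, hno⟩ := hS (d + (d₀ + 1)) (max N₀ (max N₁ ⌈4 / δ⌉₊))
  have hnN₁ : N₁ ≤ n := (le_max_left _ _).trans ((le_max_right _ _).trans hn)
  have hnδ : 4 / δ ≤ n := by
    have h1 : ⌈4 / δ⌉₊ ≤ n := (le_max_right _ _).trans ((le_max_right _ _).trans hn)
    exact (Nat.le_ceil _).trans (by exact_mod_cast h1)
  set N : ℕ := 3 + 2 * n + 12 * (n * k) with hN
  have hnN : n ≤ N := by omega
  refine ⟨N, ((le_max_left _ _).trans hn).trans hnN, hn1.trans hnN, ?_⟩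
  rintro ⟨C, hwf, hd, hsize, hacc⟩
  refine hno ?_
  obtain ⟨t, ht⟩ := hENU n hn1
  have e : V n k ≃ Fin N := Fintype.equivFinOfCardEq (card_V n k)
  have hw2 : 2 ≤ (2 * n) ^ K := by
    calc 2 ≤ 2 * n := by omega
      _ = (2 * n) ^ 1 := (pow_one _).symm
      _ ≤ (2 * n) ^ K := Nat.pow_le_pow_right (by omega) hK1
  have hne : Nonempty (Cl n) := ⟨⟨∅, by simp⟩⟩
  obtain ⟨C', g1, g2, g3, g4⟩ := t_SUB (Cl n) (Pr N) ((2 * n) ^ K) d d₀ C hw2 hwf hd
    (bits e t) (fun p => by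
      have h1 := hP n hn1 t (e.symm p.1.1) (e.symm p.1.2)
      have h2 : (fun x : Cl n → Bool => bits e t x p = true) =
          (fun x : Cl n → Bool => E t x (e.symm p.1.1) (e.symm p.1.2) ∨ E t x (e.symm p.1.2) (e.symm p.1.1)) := by
        funext x
        exact propext (bits_eq e t x p)
      rw [h2]
      exact h1)
  refine ⟨C', g1, g2, ?_, fun x hx => ?_⟩
  · -- sizes
    set X : ℝ := (2 : ℝ) ^ (δ / 4 * (n : ℝ)) with hX
    have hX2 : 2 ≤ X := by
      have h1 : (1 : ℝ) ≤ δ / 4 * n := by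
        rw [div_le_iff₀ hδ] at hnδ
        linarith
      calc (2 : ℝ) = (2 : ℝ) ^ (1 : ℝ) := (Real.rpow_one 2).symm
        _ ≤ X := Real.rpow_le_rpow_of_exponent_le (by norm_num) h1
    have hNA : (N : ℝ) ≤ A * n := by
      have h1 : (1 : ℝ) ≤ n := by exact_mod_cast hn1
      rw [hN, hA]
      push_cast
      nlinarith
    have hsize' : (Fintype.card (Pr N) : ℝ) + (C.m : ℝ) ≤ X := by
      refine hsize.trans ?_
      rw [hX]
      apply Real.rpow_le_rpow_of_exponent_le (by norm_num)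
      rw [div_mul_eq_mul_div, div_le_iff₀ hA0]
      have : 0 < δ / 4 := by positivity
      nlinarith
    have hW : ((((2 * n) ^ (K * (2 * d₀) + 5)) : ℕ) : ℝ) ≤ X := by
      exact_mod_cast hN₁ n hnN₁
    have hcard : Fintype.card (Cl n) ≤ (2 * n) ^ 4 := card_Cl_le n hn1
    have g3' : (C'.m : ℝ) ≤ (C.m : ℝ) + (Fintype.card (Pr N) : ℝ) *
        ((((2 * n) ^ (K * (2 * d₀))) : ℕ) : ℝ) := by
      rw [← pow_mul] at g3
      exact_mod_cast g3
    have hcard' : (Fintype.card (Cl n) : ℝ) ≤ ((((2 * n) ^ 4) : ℕ) : ℝ) := by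
      exact_mod_cast hcard
    set W : ℝ := ((((2 * n) ^ (K * (2 * d₀))) : ℕ) : ℝ) with hWd
    set F : ℝ := ((((2 * n) ^ 4) : ℕ) : ℝ) with hFd
    have hW1 : (1 : ℝ) ≤ W := by
      have : 1 ≤ (2 * n) ^ (K * (2 * d₀)) := Nat.one_le_pow _ _ (by omega)
      rw [hWd]
      exact_mod_cast this
    have hF1 : (1 : ℝ) ≤ F := by
      have : 1 ≤ (2 * n) ^ 4 := Nat.one_le_pow _ _ (by omega)
      rw [hFd]
      exact_mod_cast this
    have hWF : 2 * (W * F) ≤ X := by
      have h1 : 2 * ((2 * n) ^ (K * (2 * d₀)) * (2 * n) ^ 4) ≤ (2 * n) ^ (K * (2 * d₀) + 5) := by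
        have : (2 * n) ^ (K * (2 * d₀) + 5) = (2 * n) * ((2 * n) ^ (K * (2 * d₀)) * (2 * n) ^ 4) := by
          rw [← pow_add]
          ring
        rw [this]
        exact Nat.mul_le_mul_right _ (by omega)
      have h2 : ((2 * ((2 * n) ^ (K * (2 * d₀)) * (2 * n) ^ 4) : ℕ) : ℝ) ≤
          (((2 * n) ^ (K * (2 * d₀) + 5) : ℕ) : ℝ) := by exact_mod_cast h1
      have h3 : ((2 * ((2 * n) ^ (K * (2 * d₀)) * (2 * n) ^ 4) : ℕ) : ℝ) = 2 * (W * F) := by
        rw [hWd, hFd]; push_cast; ring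
      rw [← h3]
      exact h2.trans hW
    set L : ℝ := (Fintype.card (Pr N) : ℝ) with hL
    set M : ℝ := (C.m : ℝ) with hM
    have hM0 : 0 ≤ M := Nat.cast_nonneg _
    have hL0 : 0 ≤ L := Nat.cast_nonneg _
    have e1 : (2 : ℝ) ^ (δ * (n : ℝ)) = (X * X) * (X * X) := by
      rw [hX, ← Real.rpow_add (by norm_num), ← Real.rpow_add (by norm_num)]
      congr 1
      ring
    rw [e1]
    have e2 : M + L * W ≤ W * (L + M) := by nlinarith
    have hWX : W ≤ X := by nlinarith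
    have hFX : F ≤ X := by nlinarith
    have e3 : W * (L + M) ≤ X * X := by
      apply mul_le_mul hWX hsize' (by linarith) (by linarith)
    have e5 : (1 : ℝ) ≤ X := by linarith
    have e6 : X ≤ X * X := le_mul_of_one_le_right (by linarith) e5
    have e7 : 2 ≤ X * X := by nlinarith
    have e4 : 2 * (X * X) ≤ (X * X) * (X * X) := by nlinarith
    linarith
  · rw [g4, hacc, col_bits, ← hCOR n k t x hn1 ht hx]

end Pool.Agent.J4H68.CG
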