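import Pool.Agent.J4H68.CG.Cor
import Pool.Agent.J4H68.CG.Up
import Pool.Agent.J4H35.CG.Ace
import Pool.Agent.J4H4.CG.Dn
import Pool.Agent.J4H4.CG.Enu

/-!
# Project SP (b): Hypothesis H and 3-colourability

`HypH ↔ HypCol`: some exponential lower bound for satisfiability of 3-CNFs holds for unbounded fan-in circuits of every constant depth
iff some exponential lower bound (in the number of the vertices) for 3-colourability of graphs does.
-/

set_option autoImplicit false

namespace Pool.Agent.J4H68.CG

open Finset Pool.Agent.J4H64.SS Pool.Agent.J4H95.SP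

theorem H_iff_Col : HypH ↔ HypCol :=
  ⟨fun h => t_UP t_COR Pool.Agent.J4H4.CG.t_ENU Pool.Agent.J4H35.CG.t_ACE (H_iff_sparse.1 h), Pool.Agent.J4H4.CG.t_DN⟩

end Pool.Agent.J4H68.CG
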