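import Pool.Agent.J4H68.CG.Stm

/-!
# Project SP (b): the reduction to 3-colourability is correct
-/

set_option autoImplicit false

namespace Pool.Agent.J4H68.CG

open Finset Pool.Agent.J4H64.SS Pool.Agent.J4H95.SP

/-- the colours of a triangle with the inputs `a`, `b` -/
def tri : Bool → Bool → Fin 3 → Fin 3
  | true, true => ![0, 2, 1]
  | true, false => ![0, 2, 1]
  | false, true => ![2, 0, 1]
  | false, false => ![1, 2, 0]

/-- the colours of a gadget -/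
def gad (a b c : Bool) : Fin 6 → Fin 3 :=
  ![tri a b 0, tri a b 1, tri a b 2, tri (a || b) c 0, tri (a || b) c 1, tri (a || b) c 2]

/-- the colour of a literal -/
def lit (a : Bool) : Fin 3 := if a then 1 else 0

theorem gad_inner (a b c : Bool) (i j : Fin 6) (h : inner i j) : gad a b c i ≠ gad a b c j := by
  rcases h with ⟨rfl, rfl⟩ | ⟨rfl, rfl⟩ | ⟨rfl, rfl⟩ | ⟨rfl, rfl⟩ | ⟨rfl, rfl⟩ | ⟨rfl, rfl⟩ | ⟨rfl, rfl⟩ <;>
    (revert a b c; decide)

theorem gad0 : ∀ a b c : Bool, gad a b c 0 ≠ lit a := by decide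

theorem gad1 : ∀ a b c : Bool, gad a b c 1 ≠ lit b := by decide

theorem gad4 : ∀ a b c : Bool, gad a b c 4 ≠ lit c := by decide

theorem gad5 : ∀ a b c : Bool, (a || b || c) = true → gad a b c 5 = 1 := by decide

theorem tri_out : ∀ f g0 g1 g2 : Fin 3, g0 ≠ f → g1 ≠ f → g0 ≠ g1 → g0 ≠ g2 → g1 ≠ g2 → g2 = f := by
  decide

theorem pal3 : ∀ p0 p1 p2 q : Fin 3, p0 ≠ p1 → p0 ≠ p2 → p1 ≠ p2 → q ≠ p0 → q ≠ p1 → q ≠ p2 → False := by
  decide

theorem pal2 (p0 p1 p2 q : Fin 3) (h1 : p0 ≠ p1) (h2 : p0 ≠ p2) (h3 : p1 ≠ p2) (h4 : q ≠ p1)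
    (h5 : q ≠ p2) : q = p0 := by
  by_contra h
  exact pal3 p0 p1 p2 q h1 h2 h3 h h4 h5

section

variable {n : ℕ} {x : Cl n → Bool}

theorem num_inj {c c' : Cl n} (h : num c = num c') : c = c' :=
  (Fintype.equivFin (Cl n)).injective (Fin.ext h)

theorem slot_lt {l : Fin n × Bool} {i : ℕ} {c c' : Cl n} (h : Slot x l i c) (h' : Slot x l i c') :
    ¬ num c < num c' := by
  intro hlt
  obtain ⟨h1, h2, h3⟩ := h
  obtain ⟨h1', h2', h3'⟩ := h'
  have hss : (univ.filter (fun d : Cl n => l ∈ d.1 ∧ num d < num c ∧ x d = true)) ⊂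
      (univ.filter (fun d : Cl n => l ∈ d.1 ∧ num d < num c' ∧ x d = true)) := by
    rw [Finset.ssubset_iff_of_subset]
    · refine ⟨c, ?_, ?_⟩
      · rw [mem_filter]
        exact ⟨mem_univ _, h1, hlt, h2⟩
      · rw [mem_filter]
        rintro ⟨_, _, h, _⟩
        exact lt_irrefl _ h
    · intro d hd
      rw [mem_filter] at hd ⊢
      exact ⟨hd.1, hd.2.1, hd.2.2.1.trans hlt, hd.2.2.2⟩
  have := card_lt_card hss
  omega

theorem slot_unique {l : Fin n × Bool} {i : ℕ} {c c' : Cl n} (h : Slot x l i c) (h' : Slot x l i c') :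
    c = c' := by
  apply num_inj
  have h1 := slot_lt h h'
  have h2 := slot_lt h' h
  omega

theorem exists_slot {k : ℕ} (hsp : ∀ l : Fin n × Bool, (univ.filter (fun c : Cl n => x c = true ∧ l ∈ c.1)).card ≤ k)
    {l : Fin n × Bool} {c : Cl n} (hl : l ∈ c.1) (hc : x c = true) : ∃ i : Fin k, Slot x l i c := by
  have hss : (univ.filter (fun d : Cl n => l ∈ d.1 ∧ num d < num c ∧ x d = true)) ⊂
      (univ.filter (fun d : Cl n => x d = true ∧ l ∈ d.1)) := by
    rw [Finset.ssubset_iff_of_subset]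
    · refine ⟨c, ?_, ?_⟩
      · rw [mem_filter]
        exact ⟨mem_univ _, hc, hl⟩
      · rw [mem_filter]
        rintro ⟨_, _, h, _⟩
        exact lt_irrefl _ h
    · intro d hd
      rw [mem_filter] at hd ⊢
      exact ⟨hd.1, hd.2.2.2, hd.2.1⟩
  have h1 := (card_lt_card hss).trans_le (hsp l)
  exact ⟨⟨_, h1⟩, hl, hc, rfl⟩

end

theorem t_COR : S_COR := by
  classical
  intro n k t x hn ht hsp
  constructor
  · rintro ⟨a, ha⟩
    have hx0 : ¬ x ⟨∅, by simp⟩ = true := by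
      intro h
      obtain ⟨l, hl, _⟩ := ha _ h
      exact absurd hl (notMem_empty l)
    let val : Fin n × Bool → Bool := fun l => decide (a l.1 = l.2)
    let A : (Fin n × Bool) → ℕ → Fin 3 → Bool := fun l i j =>
      if h : ∃ c, Slot x l i c then val (t h.choose j) else true
    have hA : ∀ l i c, Slot x l i c → ∀ j, A l i j = val (t c j) := by
      intro l i c hc j
      have hex : ∃ c, Slot x l i c := ⟨c, hc⟩
      have h1 : hex.choose = c := slot_unique hex.choose_spec hc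
      simp only [A]
      rw [dif_pos hex, h1]
    have hA' : ∀ l i, (A l i 0 || A l i 1 || A l i 2) = true := by
      intro l i
      by_cases hex : ∃ c, Slot x l i c
      · obtain ⟨c, hc⟩ := hex
        rw [hA l i c hc 0, hA l i c hc 1, hA l i c hc 2]
        obtain ⟨m, hm, hm'⟩ := ha c hc.2.1
        obtain ⟨j, hj⟩ := (ht c ⟨l, hc.1⟩ m).1 hm
        have hv : val (t c j) = true := by
          rw [hj]
          exact decide_eq_true hm'
        have h3 : ∀ j : Fin 3, j = 0 ∨ j = 1 ∨ j = 2 := by decide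
        rcases h3 j with rfl | rfl | rfl
        · simp [hv]
        · simp [hv]
        · simp [hv]
      · simp only [A]
        rw [dif_neg hex]
        rfl
    refine ⟨Sum.elim id (Sum.elim (fun l => lit (val l)) (fun g =>
      gad (A g.1 g.2.1 0) (A g.1 g.2.1 1) (A g.1 g.2.1 2) g.2.2)), ?_⟩
    rintro (i | l | g) (j | m | g') h
    · exact h
    · exact absurd h id
    · exact absurd h id
    · rcases h with h | h
      · subst h
        change lit (val l) ≠ 2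
        unfold lit
        cases val l <;> decide
      · exact absurd h hx0
    · obtain ⟨h1, h2, h3⟩ := h
      change lit (val l) ≠ lit (val m)
      have e1 : val l = a l.1 := by
        simp only [val]
        rw [h2]
        cases a l.1 <;> rfl
      have e2 : val m = !(a l.1) := by
        simp only [val]
        rw [h3, ← h1]
        cases a l.1 <;> rfl
      rw [e1, e2]
      cases a l.1 <;> decide
    · exact absurd h id
    · obtain ⟨h1, h2⟩ := h
      change gad (A g.1 g.2.1 0) (A g.1 g.2.1 1) (A g.1 g.2.1 2) g.2.2 ≠ j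
      rw [h1, gad5 _ _ _ (hA' _ _)]
      exact h2.symm
    · obtain ⟨c, hc, h⟩ := h
      change gad (A g.1 g.2.1 0) (A g.1 g.2.1 1) (A g.1 g.2.1 2) g.2.2 ≠ lit (val m)
      rcases h with ⟨h1, rfl⟩ | ⟨h1, rfl⟩ | ⟨h1, rfl⟩
      · rw [h1, ← hA _ _ c hc 0]
        exact gad0 _ _ _
      · rw [h1, ← hA _ _ c hc 1]
        exact gad1 _ _ _
      · rw [h1, ← hA _ _ c hc 2]
        exact gad4 _ _ _
    · obtain ⟨h1, h2, h3⟩ := h
      change gad (A g.1 g.2.1 0) (A g.1 g.2.1 1) (A g.1 g.2.1 2) g.2.2 ≠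
        gad (A g'.1 g'.2.1 0) (A g'.1 g'.2.1 1) (A g'.1 g'.2.1 2) g'.2.2
      rw [← h1, ← h2]
      exact gad_inner _ _ _ _ _ h3
  · rintro ⟨χ, hχ⟩
    have p01 : χ (Sum.inl 0) ≠ χ (Sum.inl 1) := hχ _ _ (show (0 : Fin 3) ≠ 1 by decide)
    have p02 : χ (Sum.inl 0) ≠ χ (Sum.inl 2) := hχ _ _ (show (0 : Fin 3) ≠ 2 by decide)
    have p12 : χ (Sum.inl 1) ≠ χ (Sum.inl 2) := hχ _ _ (show (1 : Fin 3) ≠ 2 by decide)
    have hx0 : ¬ x ⟨∅, by simp⟩ = true := by
      intro h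
      let l0 : Fin n × Bool := (⟨0, hn⟩, true)
      exact pal3 _ _ _ (χ (Sum.inr (Sum.inl l0))) p01 p02 p12
        (hχ (Sum.inr (Sum.inl l0)) (Sum.inl 0) (Or.inr h)) (hχ (Sum.inr (Sum.inl l0)) (Sum.inl 1) (Or.inr h))
        (hχ (Sum.inr (Sum.inl l0)) (Sum.inl 2) (Or.inr h))
    have hl2 : ∀ l : Fin n × Bool, χ (Sum.inr (Sum.inl l)) ≠ χ (Sum.inl 2) := fun l =>
      hχ (Sum.inr (Sum.inl l)) (Sum.inl 2) (Or.inl rfl)
    have hneg : ∀ v : Fin n, χ (Sum.inr (Sum.inl (v, true))) ≠ χ (Sum.inr (Sum.inl (v, false))) := fun v =>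
      hχ (Sum.inr (Sum.inl (v, true))) (Sum.inr (Sum.inl (v, false))) ⟨rfl, rfl, rfl⟩
    refine ⟨fun v => decide (χ (Sum.inr (Sum.inl (v, true))) = χ (Sum.inl 1)), fun c hc => ?_⟩
    have hne : c.1.Nonempty := by
      rw [Finset.nonempty_iff_ne_empty]
      intro h0
      apply hx0
      have : c = ⟨∅, by simp⟩ := Subtype.ext h0
      rw [← this]
      exact hc
    obtain ⟨l, hl⟩ := hne
    obtain ⟨i, hi⟩ := exists_slot hsp hl hc
    let G : Fin 6 → V n k := fun s => Sum.inr (Sum.inr (l, i, s))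
    have c0 : χ (G 0) ≠ χ (Sum.inr (Sum.inl (t c 0))) := hχ (G 0) _ ⟨c, hi, Or.inl ⟨rfl, rfl⟩⟩
    have c1 : χ (G 1) ≠ χ (Sum.inr (Sum.inl (t c 1))) := hχ (G 1) _ ⟨c, hi, Or.inr (Or.inl ⟨rfl, rfl⟩)⟩
    have c4 : χ (G 4) ≠ χ (Sum.inr (Sum.inl (t c 2))) := hχ (G 4) _ ⟨c, hi, Or.inr (Or.inr ⟨rfl, rfl⟩)⟩
    have hin : ∀ a b : Fin 6, inner a b → χ (G a) ≠ χ (G b) := fun a b hab => hχ (G a) (G b) ⟨rfl, rfl, hab⟩
    have g01 := hin 0 1 (Or.inl ⟨rfl, rfl⟩)
    have g02 := hin 0 2 (Or.inr (Or.inl ⟨rfl, rfl⟩))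
    have g12 := hin 1 2 (Or.inr (Or.inr (Or.inl ⟨rfl, rfl⟩)))
    have g23 := hin 2 3 (Or.inr (Or.inr (Or.inr (Or.inl ⟨rfl, rfl⟩))))
    have g34 := hin 3 4 (Or.inr (Or.inr (Or.inr (Or.inr (Or.inl ⟨rfl, rfl⟩)))))
    have g35 := hin 3 5 (Or.inr (Or.inr (Or.inr (Or.inr (Or.inr (Or.inl ⟨rfl, rfl⟩))))))
    have g45 := hin 4 5 (Or.inr (Or.inr (Or.inr (Or.inr (Or.inr (Or.inr ⟨rfl, rfl⟩))))))
    have g5 : χ (G 5) ≠ χ (Sum.inl 0) := hχ (G 5) (Sum.inl 0) ⟨rfl, by decide⟩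
    have hex : ∃ j, χ (Sum.inr (Sum.inl (t c j))) = χ (Sum.inl 1) := by
      by_contra hno
      push Not at hno
      have hf : ∀ j, χ (Sum.inr (Sum.inl (t c j))) = χ (Sum.inl 0) := fun j =>
        pal2 _ _ _ _ p01 p02 p12 (hno j) (hl2 _)
      rw [hf] at c0 c1 c4
      have e2 := tri_out _ _ _ _ c0 c1 g01 g02 g12
      rw [e2] at g23
      have e5 := tri_out _ _ _ _ g23.symm c4 g34 g35 g45
      exact g5 e5
    obtain ⟨j, hj⟩ := hex
    have hm : t c j ∈ c.1 := (ht c ⟨l, hl⟩ _).2 ⟨j, rfl⟩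
    refine ⟨t c j, hm, ?_⟩
    generalize t c j = m at hj
    obtain ⟨v, s⟩ := m
    cases s
    · rw [decide_eq_false_iff_not]
      intro h
      exact hneg v (h.trans hj.symm)
    · exact decide_eq_true hj

end Pool.Agent.J4H68.CG
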