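import Pool.Agent.J4H95.SP.Def

/-!
# Project SP (b): 3-colourability of graphs (MP_b53add_lc)

`HypH ↔ HypCol`: Hypothesis H for 3-colourability of graphs on `N` vertices, given by their
adjacency bits.
-/

set_option autoImplicit false

namespace Pool.Agent.J4H68.CG

open Finset Pool.Agent.J4H64.SS Pool.Agent.J4H95.SP

/-- the pairs of vertices -/
abbrev Pr (N : ℕ) : Type := {p : Fin N × Fin N // p.1 < p.2}

/-- the graph on `N` vertices with the adjacency bits `x` is 3-colourable -/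
def Col {N : ℕ} (x : Pr N → Bool) : Prop :=
  ∃ χ : Fin N → Fin 3, ∀ p : Pr N, x p = true → χ p.1.1 ≠ χ p.1.2

/-- Hypothesis H for 3-colourability of graphs on `N` vertices -/
def HypCol : Prop :=
  ∃ δ : ℝ, 0 < δ ∧ ∀ d N₀ : ℕ, ∃ N : ℕ, N₀ ≤ N ∧ 1 ≤ N ∧
    ¬ ∃ C : Circ (Pr N), C.WF ∧ C.Depth d ∧
      ((Fintype.card (Pr N) : ℝ) + (C.m : ℝ) ≤ (2 : ℝ) ^ (δ * (N : ℝ))) ∧
      ∀ x, C.Acc x ↔ Col x

/-! ### The graph of a sparse 3-CNF -/

/-- the number of a clause -/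
noncomputable def num {n : ℕ} (c : Cl n) : ℕ := (Fintype.equivFin (Cl n) c : ℕ)

/-- `c` is the present clause with exactly `i` smaller present clauses among the clauses containing `l` -/
def Slot {n : ℕ} (x : Cl n → Bool) (l : Fin n × Bool) (i : ℕ) (c : Cl n) : Prop :=
  l ∈ c.1 ∧ x c = true ∧ (univ.filter (fun c' : Cl n => l ∈ c'.1 ∧ num c' < num c ∧ x c' = true)).card = i

/-- an enumeration with repetitions of the literals of a nonempty clause -/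
def IsEnum {n : ℕ} (t : Cl n → Fin 3 → Fin n × Bool) : Prop :=
  ∀ c : Cl n, c.1.Nonempty → ∀ l, l ∈ c.1 ↔ ∃ j, t c j = l

/-- the vertices: palette (`0` false, `1` true, `2` base), literals, six vertices for every slot -/
abbrev V (n k : ℕ) : Type := Fin 3 ⊕ ((Fin n × Bool) ⊕ ((Fin n × Bool) × Fin k × Fin 6))

/-- the edges inside a gadget: two triangles `0 1 2`, `3 4 5` and the edge `2 3` -/
def inner (a b : Fin 6) : Prop :=
  (a = 0 ∧ b = 1) ∨ (a = 0 ∧ b = 2) ∨ (a = 1 ∧ b = 2) ∨ (a = 2 ∧ b = 3) ∨ (a = 3 ∧ b = 4) ∨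
    (a = 3 ∧ b = 5) ∨ (a = 4 ∧ b = 5)

/-- the edges (each in one direction) -/
def E {n k : ℕ} (t : Cl n → Fin 3 → Fin n × Bool) (x : Cl n → Bool) : V n k → V n k → Prop
  | Sum.inl i, Sum.inl j => i ≠ j
  | Sum.inr (Sum.inl _), Sum.inl j => j = 2 ∨ x ⟨∅, by simp⟩ = true
  | Sum.inr (Sum.inl l), Sum.inr (Sum.inl l') => l.1 = l'.1 ∧ l.2 = true ∧ l'.2 = false
  | Sum.inr (Sum.inr g), Sum.inl j => g.2.2 = 5 ∧ j ≠ 1
  | Sum.inr (Sum.inr g), Sum.inr (Sum.inr g') => g.1 = g'.1 ∧ g.2.1 = g'.2.1 ∧ inner g.2.2 g'.2.2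
  | Sum.inr (Sum.inr g), Sum.inr (Sum.inl m) => ∃ c : Cl n, Slot x g.1 g.2.1 c ∧
      ((g.2.2 = 0 ∧ m = t c 0) ∨ (g.2.2 = 1 ∧ m = t c 1) ∨ (g.2.2 = 4 ∧ m = t c 2))
  | _, _ => False

/-- (COR) the reduction is correct -/
def S_COR : Prop := ∀ (n k : ℕ) (t : Cl n → Fin 3 → Fin n × Bool) (x : Cl n → Bool), 1 ≤ n → IsEnum t →
  (∀ l : Fin n × Bool, (univ.filter (fun c : Cl n => x c = true ∧ l ∈ c.1)).card ≤ k) →
  (Sat x ↔ ∃ χ : V n k → Fin 3, ∀ u v, E t x u v → χ u ≠ χ v)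

/-- (ENU) -/
def S_ENU : Prop := ∀ n : ℕ, 1 ≤ n → ∃ t : Cl n → Fin 3 → Fin n × Bool, IsEnum t

/-- (ACE) the edges are trees of bounded depth; `card (Cl n) ≤ (2 n + 1)³ ≤ (2 n) ^ 6`; the number of the elements of a fixed set which
are present is exactly `i ≤ k`: `i` of them are and `i + 1` of them are not -/
def S_ACE : Prop := ∀ k : ℕ, ∃ K d₀ : ℕ, 1 ≤ K ∧ ∀ (n : ℕ), 1 ≤ n → ∀ (t : Cl n → Fin 3 → Fin n × Bool) (u v : V n k),
  AC ((2 * n) ^ K) d₀ (fun x : Cl n → Bool => E t x u v ∨ E t x v u)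

/-- (UP) with `comp`, `tree` of `J4H21/SP/Comp.lean`; `N = card (V n k) = 3 + 2 n + 12 n k`, `V n k ≃ Fin N` -/
def S_UP : Prop := S_COR → S_ENU → S_ACE → (∃ δ : ℝ, 0 < δ ∧ ∃ k : ℕ, SparseHyp δ k) → HypCol

/-- (DN) 3-colourability on `N` vertices is a projection of satisfiability on `3 N` variables `(v, i)`: the clauses
`{(v, 0), (v, 1), (v, 2)}` (constant true) and `{¬ (u, i), ¬ (v, i)}` (the bit of `{u, v}`), all others constant false -/
def S_DN : Prop := HypCol → HypH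

end Pool.Agent.J4H68.CG
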